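import Pool.Agent.Lib.MP_62bfd3_lc.BW.Fm2

/-!
# BW.Fm5 : types of tuples with respect to the nodes of a formula (definitions)
-/

namespace BW

open Encodable

/-- the tuple `a₀, l` as an assignment: the variables beyond the tuple get the value `a₀` -/
def ext {A : Type} (a₀ : A) (l : List A) : ℕ → A := fun i => (a₀ :: l).getD i a₀

/-- the type of the tuple `a₀, l` with respect to the nodes of `φ` -/
noncomputable def Tp {A : Type} (M : Str A) (φ : Fml) (a₀ : A) (l : List A) : ℕ → ℕ :=
  Tru M φ (ext a₀ l)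

/-- all types realised in countable models of `φ₀` -/
def TT (φ₀ φ : Fml) : Set (ℕ → ℕ) :=
  {t | ∃ (A : Type) (M : Str A), Countable A ∧ Mod M φ₀ ∧ ∃ a₀ l, t = Tp M φ a₀ l}

/-- in the countable models of `φ₀` the type of a tuple with respect to the nodes of `φ`
determines its `α`-equivalence class -/
def Det (φ₀ φ : Fml) (α : Ordinal.{0}) : Prop :=
  ∀ (A B : Type) (M : Str A) (N : Str B), Countable A → Countable B → Mod M φ₀ → Mod N φ₀ →
    ∀ a₀ l b₀ r, l.length = r.length → Tp M φ a₀ l = Tp N φ b₀ r →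
      BF M N α (a₀ :: l) (b₀ :: r)

/-- conjunction of three formulas -/
def mk3 (φ ψ χ : Fml) : Fml :=
  .conj fun n => match n with
    | 0 => φ
    | 1 => ψ
    | _ + 2 => χ

/-- the conjunction of all atomic formulas `R_k (v_0, .., v_(n-1))` -/
def atomsF : Fml := .conj fun n => .rel (Nat.unpair n).1 (List.range (Nat.unpair n).2)

/-- the formula `φ` together with `φ₀` and all atomic formulas -/
def mkRich (φ₀ φ : Fml) : Fml := mk3 φ₀ φ (mk3 (.eq 0 1) atomsF (.eq 0 1))

/-- the list `m` prolonged by zeros to the length `k` -/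
def padL (k : ℕ) (m : List ℕ) : List ℕ := (List.range (max k m.length)).map (asg m)

/-- there is an element which together with `v_0, .., v_(k-1)` has the type `t` -/
def stepF (φ : Fml) (t : ℕ → ℕ) (k : ℕ) : Fml :=
  .neg (.all k (.neg (.conj fun n =>
    if t n = 1 then .ren (padL (k + 1) (dl (Nat.unpair n).2)) (φ.at (dl (Nat.unpair n).1))
    else .neg (.ren (padL (k + 1) (dl (Nat.unpair n).2)) (φ.at (dl (Nat.unpair n).1))))))

/-- all formulas `stepF φ t k`, `t` in the sequence `y` -/
def stepAll (φ : Fml) (y : ℕ → ℕ) : Fml :=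
  .conj fun n => stepF φ (col y (Nat.unpair n).1) (Nat.unpair n).2

/-- codes of formulas -/
def IsCode (c : ℕ → ℕ) : Prop := ∃ φ, HasCode φ c

end BW
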