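import Pool.Agent.Lib.MP_62bfd3_lc.BW.Fm2

/-!
# BW.M1 : satisfaction and isomorphisms

PROOFS.  Inductions on the formula.
* `sat_congr` : `all i φ`: the updated assignments agree on `φ.free`; `ren l φ`: the free variable `i`
  of `φ` is sent to `l.getD i i ∈ (ren l φ).free`.
* `sat_iso` : for `all` use that `f` is onto and `f ∘ update v i a = update (f ∘ v) i (f a)`.
* `codes_iso` : `dgm ι M = dgm (ι ∘ f.symm) N`.
* `omega1Str_iso` : the sets in the definition are equal.
-/

namespace BW

variable {A B C : Type} {M : Str A} {N : Str B} {P : Str C}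

theorem sat_congr (φ : Fml) {v w : ℕ → A} (h : ∀ i ∈ φ.free, v i = w i) :
    Sat M φ v ↔ Sat M φ w := by
  induction φ generalizing v w with
  | eq i j =>
    have h1 : v i = w i := h i (Or.inl rfl)
    have h2 : v j = w j := h j (Or.inr rfl)
    show v i = v j ↔ w i = w j
    rw [h1, h2]
  | rel k l =>
    have h1 : l.map v = l.map w := List.map_congr_left fun i hi => h i hi
    show M.rel k (l.map v) ↔ M.rel k (l.map w)
    rw [h1]
  | neg φ ih => exact not_congr (ih h)
  | conj φ ih => exact forall_congr' fun n => ih n fun i hi => h i (Set.mem_iUnion.2 ⟨n, hi⟩)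
  | all i φ ih =>
    refine forall_congr' fun a => ih fun j hj => ?_
    by_cases hji : j = i
    · subst hji
      rw [Function.update_self, Function.update_self]
    · rw [Function.update_of_ne hji, Function.update_of_ne hji]
      exact h j ⟨hj, hji⟩
  | ren l φ ih => exact ih fun i hi => h _ ⟨i, hi, rfl⟩

theorem isIso_refl : IsIso M M (Equiv.refl A) := by
  intro k l
  have h : l.map (Equiv.refl A) = l := by simp
  rw [h]

theorem isIso_symm {f : A ≃ B} (hf : IsIso M N f) : IsIso N M f.symm := by
  intro k l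
  rw [hf k (l.map f.symm)]
  have h : (l.map f.symm).map f = l := by simp
  rw [h]

theorem isIso_trans {f : A ≃ B} {g : B ≃ C} (hf : IsIso M N f) (hg : IsIso N P g) :
    IsIso M P (f.trans g) := by
  intro k l
  rw [hf k l, hg k (l.map f)]
  have h : (l.map f).map g = l.map (f.trans g) := by simp
  rw [h]

theorem sat_iso {f : A ≃ B} (hf : IsIso M N f) (φ : Fml) (v : ℕ → A) :
    Sat M φ v ↔ Sat N φ (fun i => f (v i)) := by
  induction φ generalizing v with
  | eq i j => exact f.injective.eq_iff.symm
  | rel k l =>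
    show M.rel k (l.map v) ↔ N.rel k (l.map fun i => f (v i))
    rw [hf k (l.map v)]
    have h : (l.map v).map f = l.map fun i => f (v i) := by simp
    rw [h]
  | neg φ ih => exact not_congr (ih v)
  | conj φ ih => exact forall_congr' fun n => ih n v
  | all i φ ih =>
    have h : ∀ a, (fun j => f (Function.update v i a j)) = Function.update (fun j => f (v j)) i (f a) := by
      intro a
      funext j
      by_cases hji : j = i
      · subst hji
        rw [Function.update_self, Function.update_self]
      · rw [Function.update_of_ne hji, Function.update_of_ne hji]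
    constructor
    · intro h1 b
      have h2 := (ih _).1 (h1 (f.symm b))
      rw [h, Equiv.apply_symm_apply] at h2
      exact h2
    · intro h1 a
      refine (ih _).2 ?_
      rw [h]
      exact h1 (f a)
  | ren l φ ih => exact ih _

theorem mod_iso {f : A ≃ B} (hf : IsIso M N f) (φ : Fml) : Mod M φ ↔ Mod N φ := by
  constructor
  · intro h v
    have h1 := (sat_iso hf φ (fun i => f.symm (v i))).1 (h _)
    simpa using h1
  · intro h v
    exact (sat_iso hf φ v).2 (h _)

theorem mod_iff {φ : Fml} (hφ : φ.free = ∅) (v : ℕ → A) : Mod M φ ↔ Sat M φ v := by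
  constructor
  · intro h
    exact h v
  · intro h w
    refine (sat_congr φ fun i hi => ?_).1 h
    rw [hφ] at hi
    exact absurd hi (Set.notMem_empty i)

theorem codes_iso {f : A ≃ B} (hf : IsIso M N f) {y : ℕ → ℕ} (h : Codes y M) : Codes y N := by
  classical
  obtain ⟨ι, hι, hy⟩ := h
  refine ⟨ι ∘ f.symm, hι.comp f.symm.injective, ?_⟩
  rw [hy]
  funext n
  unfold dgm
  have e0 : (∃ a, dl (Nat.unpair n).2 = [ι a]) ↔ ∃ b, dl (Nat.unpair n).2 = [(ι ∘ f.symm) b] := by
    constructor
    · rintro ⟨a, ha⟩
      exact ⟨f a, by simpa using ha⟩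
    · rintro ⟨b, hb⟩
      exact ⟨f.symm b, hb⟩
  have e1 : ∀ k, (∃ l : List A, dl (Nat.unpair n).2 = l.map ι ∧ M.rel k l) ↔
      ∃ l : List B, dl (Nat.unpair n).2 = l.map (ι ∘ f.symm) ∧ N.rel k l := by
    intro k
    constructor
    · rintro ⟨l, hl, hM⟩
      refine ⟨l.map f, ?_, (hf k l).1 hM⟩
      rw [hl]
      simp
    · rintro ⟨l, hl, hN⟩
      refine ⟨l.map f.symm, ?_, (isIso_symm hf k l).1 hN⟩
      rw [hl]
      simp
  cases h : (Nat.unpair n).1 with
  | zero => simp only [e0]
  | succ k => simp only [e1]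

theorem omega1Str_iso {f : A ≃ B} (hf : IsIso M N f) : omega1Str M = omega1Str N := by
  unfold omega1Str
  congr 1
  ext α
  constructor
  · rintro ⟨y, hy, hα⟩
    exact ⟨y, codes_iso hf hy, hα⟩
  · rintro ⟨y, hy, hα⟩
    exact ⟨y, codes_iso (isIso_symm hf) hy, hα⟩

end BW
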