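import Mathlib

/-!
# BW: definitions (campaign MP_62bfd3, Barwise's ordinal spectrum)

Reals are functions `ℕ → ℕ`.  This file fixes: finite restrictions, pairing of reals,
total recursive functionals (`Rec`), recursive predicates (`RecP`), lightface `Σ¹₁` predicates
(`S11`), the universal `Σ¹₁` predicate (`U11`), the universal oracle relation (`Gr`), relations and
their order types, and `ω₁^x` (`omega1 x`).
-/

namespace BW

/-- the list of the first `k` values of the real `x` -/
def pre (x : ℕ → ℕ) (k : ℕ) : List ℕ := (List.range k).map x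

/-- pairing of two reals (pointwise) -/
def jn (x y : ℕ → ℕ) : ℕ → ℕ := fun k => Nat.pair (x k) (y k)

/-- first component of a real -/
def p1 (x : ℕ → ℕ) : ℕ → ℕ := fun k => (Nat.unpair (x k)).1

/-- second component of a real -/
def p2 (x : ℕ → ℕ) : ℕ → ℕ := fun k => (Nat.unpair (x k)).2

/-- the `i`-th column of a real -/
def col (x : ℕ → ℕ) (i : ℕ) : ℕ → ℕ := fun k => x (Nat.pair i k)

/-- `G` is a total recursive functional: there is a primitive recursive `g`, monotone in the
finite information on the oracle, which finds the value. -/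
def Rec (G : ℕ → (ℕ → ℕ) → ℕ) : Prop :=
  ∃ g : ℕ → List ℕ → Option ℕ, Primrec₂ g ∧
    (∀ n s t y, g n s = some y → g n (s ++ t) = some y) ∧
    (∀ n x, ∃ k, g n (pre x k) = some (G n x))

open Classical in
/-- recursive predicates of a number and a real -/
def RecP (P : ℕ → (ℕ → ℕ) → Prop) : Prop := Rec (fun n x => if P n x then 1 else 0)

/-- real valued recursive functionals -/
def RecR (F : ℕ → (ℕ → ℕ) → ℕ → ℕ) : Prop :=
  Rec (fun n x => F (Nat.unpair n).1 x (Nat.unpair n).2)

/-- lightface `Σ¹₁` predicates of a number and a real -/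
def S11 (P : ℕ → (ℕ → ℕ) → Prop) : Prop :=
  ∃ Q : ℕ → (ℕ → ℕ) → Prop, RecP Q ∧
    ∀ n x, P n x ↔ ∃ w : ℕ → ℕ, ∀ k, Q (Nat.pair n k) (jn x w)

/-- the universal `Σ¹₁` predicate -/
def U11 (c n : ℕ) (x : ℕ → ℕ) : Prop :=
  ∃ w : ℕ → ℕ, ∀ k j, j ≤ k →
    Nat.Partrec.Code.evaln k (Nat.Partrec.Code.ofNatCode c)
      (Encodable.encode (n, pre x j, pre w j)) = none

/-- the universal oracle relation: the functional with index `c` and oracle `x`
gives the output `m` on the input `n` -/
def Gr (c : ℕ) (x : ℕ → ℕ) (n m : ℕ) : Prop :=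
  ∃ k j, j ≤ k ∧
    Nat.Partrec.Code.evaln k (Nat.Partrec.Code.ofNatCode c)
      (Encodable.encode (n, pre x j)) = some m

/-- `c` is an index of a total function with oracle `x` -/
def Tot (c : ℕ) (x : ℕ → ℕ) : Prop := ∀ n, ∃! m, Gr c x n m

/-- the binary relation with index `c` and oracle `x` -/
def Rl (c : ℕ) (x : ℕ → ℕ) (a b : ℕ) : Prop := Gr c x (Nat.pair a b) 1

/-- the binary relation coded by a real -/
def rl (x : ℕ → ℕ) (a b : ℕ) : Prop := x (Nat.pair a b) = 1

/-- the strict part of a relation -/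
def strict (R : ℕ → ℕ → Prop) (a b : ℕ) : Prop := R a b ∧ a ≠ b

/-- `R` is a (reflexive) linear order of its field `{a | R a a}` -/
structure IsLin (R : ℕ → ℕ → Prop) : Prop where
  fld : ∀ a b, R a b → R a a ∧ R b b
  antisymm : ∀ a b, R a b → R b a → a = b
  trans : ∀ a b c, R a b → R b c → R a c
  total : ∀ a b, R a a → R b b → R a b ∨ R b a

/-- `R` is a (reflexive) well-order of its field -/
structure IsWO (R : ℕ → ℕ → Prop) : Prop extends IsLin R where
  wf : WellFounded (strict R)

/-- the relation `R` on its field `{a | R a a}` is a well-ordering of type `α`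
(`f` is the isomorphism onto the ordinals below `α`) -/
def HasType (R : ℕ → ℕ → Prop) (α : Ordinal.{0}) : Prop :=
  ∃ f : ℕ → Ordinal.{0}, (∀ a b, R a a → R b b → (R a b ↔ f a ≤ f b)) ∧
    (∀ a b, R a a → R b b → f a = f b → a = b) ∧
    (∀ a, R a a → f a < α) ∧ (∀ β < α, ∃ a, R a a ∧ f a = β)

/-- the function `f` is recursive in the real `x` (Mathlib's oracle computability) -/
def FunIn (x f : ℕ → ℕ) : Prop := Nat.RecursiveIn {(x : ℕ →. ℕ)} (f : ℕ →. ℕ)

/-- the relation `R` is recursive in the real `x` -/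
def RelIn (x : ℕ → ℕ) (R : ℕ → ℕ → Prop) : Prop :=
  ∃ f : ℕ → ℕ, FunIn x f ∧ ∀ a b, R a b ↔ f (Nat.pair a b) = 1

/-- the ordinal `α` is recursive in the real `x` -/
def OrdIn (x : ℕ → ℕ) (α : Ordinal.{0}) : Prop := ∃ R, RelIn x R ∧ HasType R α

/-- `ω₁^x`: the least ordinal which is not recursive in `x` -/
noncomputable def omega1 (x : ℕ → ℕ) : Ordinal.{0} := sInf {α | ¬ OrdIn x α}

/-- finite descending sequences of the relation `R` (in its field) -/
def Desc (R : ℕ → ℕ → Prop) (d : List ℕ) : Prop :=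
  (∀ a ∈ d, R a a) ∧ ∀ i, (h : i + 1 < d.length) → strict R (d[i + 1]) (d[i])

/-- the list coded by the number `q` -/
def dl (q : ℕ) : List ℕ := (Encodable.decode q).getD []

/-- the basic open set of all reals which begin with the list coded by `q` -/
def cyl (q : ℕ) : Set (ℕ → ℕ) := {g | pre g (dl q).length = dl q}

/-- Kleene-Brouwer order of lists: proper extensions are smaller -/
def KBlt (s t : List ℕ) : Prop :=
  (∃ u, u ≠ [] ∧ s = t ++ u) ∨
    ∃ p i j u v, s = p ++ i :: u ∧ t = p ++ j :: v ∧ i < j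

/-- the Kleene-Brouwer order (reflexive) of the tree `T`, on the codes of the nodes -/
def KB (T : List ℕ → Prop) (a b : ℕ) : Prop :=
  ∃ s t, a = Encodable.encode s ∧ b = Encodable.encode t ∧ T s ∧ T t ∧ (s = t ∨ KBlt s t)

/-- conditions: nonempty `Σ¹₁` sets relative to `z`, given by an index -/
def cnd (z : ℕ → ℕ) (c : ℕ) : Set (ℕ → ℕ) := {x | U11 c 0 (jn z x)}

/-- the real `x` codes a structure with universe `ℕ`: the relation number `k` holds of the
list `l` iff `x (Nat.pair k (Encodable.encode l)) = 1`.  `img h x` is the structure transported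
along `h` (pulled back). -/
def img (h : ℕ → ℕ) (x : ℕ → ℕ) : ℕ → ℕ := fun n =>
  x (Nat.pair (Nat.unpair n).1 (Encodable.encode ((dl (Nat.unpair n).2).map h)))

/-- `y` is a copy of the structure `x` (by a permutation of `ℕ`) -/
def Cp (x y : ℕ → ℕ) : Prop := ∃ h : Equiv.Perm ℕ, y = img h x

/-- `ω₁` of the structure coded by `x`: the least `ω₁^y` of a copy `y` -/
noncomputable def omega1S (x : ℕ → ℕ) : Ordinal.{0} := sInf {α | ∃ y, Cp x y ∧ omega1 y = α}

/-- the pull-back of the structure `x` along an arbitrary map `g`, with the equality of the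
`g`-images as the new relation number `0` (on pairs) -/
noncomputable def pbE (x g : ℕ → ℕ) : ℕ → ℕ := fun n =>
  match (Nat.unpair n).1 with
  | 0 => match dl (Nat.unpair n).2 with
    | [a, b] => if g a = g b then 1 else 0
    | _ => 0
  | k + 1 => x (Nat.pair k (Encodable.encode ((dl (Nat.unpair n).2).map g)))

/-- the real `y` is `Δ¹₁` (hyperarithmetic) in `x`: its graph is `Σ¹₁` in `x` -/
def HypIn (x y : ℕ → ℕ) : Prop :=
  ∃ P, S11 P ∧ ∀ n m, P (Nat.pair n m) x ↔ y n = m

/-- the real `y` is hyperarithmetic -/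
def Hyp (y : ℕ → ℕ) : Prop := HypIn (fun _ => 0) y

end BW
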