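import Pool.Agent.Lib.MP_62bfd3_lc.BW.Fm

/-!
# BW.Fm2 : auxiliary definitions: coded structures, nodes of formulas, evaluations
-/

namespace BW

open Encodable

/-- the domain of a coded structure -/
def dom (x : ℕ → ℕ) (a : ℕ) : Prop := x (Nat.pair 0 (encode [a])) = 1

/-- codes of structures with a co-infinite domain -/
structure IsCd (x : ℕ → ℕ) : Prop where
  bit : ∀ n, x n ≤ 1
  zero : ∀ l : List ℕ, x (Nat.pair 0 (encode l)) = 1 → ∃ a, l = [a]
  rel : ∀ k (l : List ℕ), x (Nat.pair (k + 1) (encode l)) = 1 → ∀ a ∈ l, dom x a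
  ne : ∃ a, dom x a
  coinf : ∀ n, ∃ a, n ≤ a ∧ ¬ dom x a

/-- the structure coded by `x` -/
def strOf (x : ℕ → ℕ) : Str {a : ℕ // dom x a} where
  rel k l := x (Nat.pair (k + 1) (encode (l.map Subtype.val))) = 1

/-- the child number `n` of the code `c` (total: leaves are their own children) -/
def st (c : ℕ → ℕ) (n : ℕ) : ℕ → ℕ :=
  if c 0 = 3 then sub c n else if c 0 ≤ 1 then c else sub c 0

/-- the code at the node `σ` -/
def nd (c : ℕ → ℕ) (σ : List ℕ) : ℕ → ℕ := σ.foldl st c

/-- the child number `n` of the formula `φ` -/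
def Fml.ch : Fml → ℕ → Fml
  | .neg φ, _ => φ
  | .conj φ, n => φ n
  | .all _ φ, _ => φ
  | .ren _ φ, _ => φ
  | .eq i j, _ => .eq i j
  | .rel k l, _ => .rel k l

/-- the subformula at the node `σ` -/
def Fml.at (φ : Fml) (σ : List ℕ) : Fml := σ.foldl Fml.ch φ

/-- finite assignments of names (numbers): the variable `i` gets the name `m_i`, by default `0` -/
def asg (m : List ℕ) (i : ℕ) : ℕ := m.getD i 0

/-- change of a finite assignment at the variable `i` -/
def upd (m : List ℕ) (i a : ℕ) : List ℕ :=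
  (List.range (max m.length (i + 1))).map fun j => if j = i then a else asg m j

/-- the finite assignment `m` composed with the substitution `l` -/
def rn (m l : List ℕ) : List ℕ :=
  (List.range (max m.length l.length)).map fun i => asg m (l.getD i i)

/-- the number of the atom (node, finite assignment) -/
def pt (σ m : List ℕ) : ℕ := Nat.pair (encode σ) (encode m)

open Classical in
/-- the true evaluation of all nodes of `φ` in `M`, with the names given by `h` -/
noncomputable def Tru {A : Type} (M : Str A) (φ : Fml) (h : ℕ → A) : ℕ → ℕ := fun n =>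
  if Sat M (φ.at (dl (Nat.unpair n).1)) (fun i => h (asg (dl (Nat.unpair n).2) i)) then 1 else 0

/-- the clauses of the definition of truth for the connectives -/
structure Eval (c T : ℕ → ℕ) : Prop where
  bit : ∀ n, T n ≤ 1
  neg : ∀ σ m, nd c σ 0 = 2 → (T (pt σ m) = 1 ↔ ¬ T (pt (σ ++ [0]) m) = 1)
  conj : ∀ σ m, nd c σ 0 = 3 → (T (pt σ m) = 1 ↔ ∀ n, T (pt (σ ++ [n]) m) = 1)
  all : ∀ σ m, nd c σ 0 = 4 →
    (T (pt σ m) = 1 ↔ ∀ a, T (pt (σ ++ [0]) (upd m (nd c σ 1) a)) = 1)
  ren : ∀ σ m, nd c σ 0 = 5 →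
    (T (pt σ m) = 1 ↔ T (pt (σ ++ [0]) (rn m (dl (nd c σ 1)))) = 1)

/-- the clauses for the atomic formulas, for an equality `E` and relations `R` on names -/
structure EvalAt (c T : ℕ → ℕ) (E : ℕ → ℕ → Prop) (R : ℕ → List ℕ → Prop) : Prop where
  eq : ∀ σ m, nd c σ 0 = 0 → (T (pt σ m) = 1 ↔ E (asg m (nd c σ 1)) (asg m (nd c σ 2)))
  rel : ∀ σ m, nd c σ 0 = 1 →
    (T (pt σ m) = 1 ↔ R (nd c σ 1) ((dl (nd c σ 2)).map (asg m)))

end BW
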