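import Pool.Agent.Lib.MP_62bfd3_lc.Mg.G004
import Pool.Agent.Lib.MP_62bfd3_lc.Mg.G005

/-!
# BW.B6 : unbounded Scott ranks

PROOF.  `⊆` is `spec_sub`.  Let `z` be a real; `omega1 z` is countable (`omega1_countable`), so there is a
countable model `M` with `omega1 z ≤ SR M ≤ omega1Str M` (`sr_le`).  Now `spec_down`.
-/

namespace BW

theorem spec_unbounded {φ : Fml} (hs : φ.free = ∅) (hc : HypFml φ)
    (h : ∀ α < Ordinal.omega 1, ∃ (A : Type) (M : Str A), Countable A ∧ Nonempty A ∧ Mod M φ ∧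
      α ≤ SR M) : Spec φ = Set.range omega1 := by
  apply Set.Subset.antisymm (spec_sub φ)
  rintro _ ⟨z, rfl⟩
  obtain ⟨A, M, hA, hN, hM, hle⟩ := h (omega1 z) omega1_countable
  have hle2 : omega1 z ≤ omega1Str M := hle.trans (sr_le M)
  refine spec_down hs hc (α := omega1Str M) ?_ z hle2
  exact ⟨A, M, hA, hN, hM, rfl⟩

end BW
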