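import Pool.Agent.Lib.MP_62bfd3_lc.Mg.G008

/-!
# BW.D6 : models of computable Scott rank are low, if the spectrum is not full

PROOF.  Let `z₀ = fun _ => 0`, `SR M < omega1 z₀`, so `SR M + ω < omega1 z₀` (`add_omega_lt`).  `exists_low` gives a
low model which is `(SR M + ω)`-equivalent to `M`, so isomorphic to `M` (`iso_of_bf`).
-/

namespace BW

theorem low_of_sr {φ₀ : Fml} (hs : φ₀.free = ∅) (h₀ : HypFml φ₀)
    (hne : Spec φ₀ ≠ Set.range omega1) {A : Type} [Countable A] [Nonempty A] (M : Str A)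
    (hM : Mod M φ₀) (hr : SR M < omega1 (fun _ => 0)) : omega1Str M = omega1 (fun _ => 0) := by
  obtain ⟨x, -, -, h3, h4⟩ := exists_low hs h₀ hne M hM (add_omega_lt hr)
  obtain ⟨g, hg⟩ := iso_of_bf h4
  rw [omega1Str_iso hg, h3]

end BW
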