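import Pool.Agent.Lib.MP_62bfd3_lc.BW.Defs

/-!
# BW.Fm : formulas of `L_{ω₁ω}`, countable structures, codes, `ω₁^M`, the spectrum, Scott rank
-/

namespace BW

open Encodable

/-- The formulas of `L_{ω₁ω}` in the countable relational vocabulary with the relation symbols
`R_k`, `k : ℕ` (applied to lists of variables of any length), variables `v_i`, `i : ℕ`:
`v_i = v_j`, `R_k(v_l)`, negation, countable conjunction, universal quantifier, and
`ren l φ`: the finite substitution of `v_{l_i}` for the free variable `v_i` (`i < l.length`). -/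
inductive Fml : Type
  | eq : ℕ → ℕ → Fml
  | rel : ℕ → List ℕ → Fml
  | neg : Fml → Fml
  | conj : (ℕ → Fml) → Fml
  | all : ℕ → Fml → Fml
  | ren : List ℕ → Fml → Fml

/-- structures for this vocabulary with universe `A` -/
structure Str (A : Type) where
  /-- the interpretation of the symbol `R_k` (for all arities) -/
  rel : ℕ → List A → Prop

/-- satisfaction -/
def Sat {A : Type} (M : Str A) : Fml → (ℕ → A) → Prop
  | .eq i j, v => v i = v j
  | .rel k l, v => M.rel k (l.map v)
  | .neg φ, v => ¬ Sat M φ v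
  | .conj φ, v => ∀ n, Sat M (φ n) v
  | .all i φ, v => ∀ a, Sat M φ (Function.update v i a)
  | .ren l φ, v => Sat M φ (fun i => v (l.getD i i))

/-- free variables -/
def Fml.free : Fml → Set ℕ
  | .eq i j => {i, j}
  | .rel _ l => {i | i ∈ l}
  | .neg φ => φ.free
  | .conj φ => ⋃ n, (φ n).free
  | .all i φ => φ.free \ {i}
  | .ren l φ => {j | ∃ i ∈ φ.free, l.getD i i = j}

/-- `M` is a model of the formula (of its universal closure) -/
def Mod {A : Type} (M : Str A) (φ : Fml) : Prop := ∀ v, Sat M φ v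

/-- the real `sub c n`, part number `n` of the code `c` -/
def sub (c : ℕ → ℕ) (n : ℕ) : ℕ → ℕ := fun k => c (Nat.pair n k + 3)

/-- the real `c` is a code of the formula `φ` -/
def HasCode : Fml → (ℕ → ℕ) → Prop
  | .eq i j, c => c 0 = 0 ∧ c 1 = i ∧ c 2 = j
  | .rel k l, c => c 0 = 1 ∧ c 1 = k ∧ c 2 = encode l
  | .neg φ, c => c 0 = 2 ∧ HasCode φ (sub c 0)
  | .conj φ, c => c 0 = 3 ∧ ∀ n, HasCode (φ n) (sub c n)
  | .all i φ, c => c 0 = 4 ∧ c 1 = i ∧ HasCode φ (sub c 0)
  | .ren l φ, c => c 0 = 5 ∧ c 1 = encode l ∧ HasCode φ (sub c 0)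

/-- formulas with a hyperarithmetic code: the formulas of `L_{ω₁ω} ∩ L_{ω₁^{CK}}` -/
def HypFml (φ : Fml) : Prop := ∃ c, Hyp c ∧ HasCode φ c

open Classical in
/-- the diagram of the structure `M`, whose elements are named by the numbers `ι a`: relation
number `0` is the set of the names, relation number `k+1` is `R_k` -/
noncomputable def dgm {A : Type} (ι : A → ℕ) (M : Str A) : ℕ → ℕ := fun n =>
  match (Nat.unpair n).1 with
  | 0 => if ∃ a, dl (Nat.unpair n).2 = [ι a] then 1 else 0
  | k + 1 => if ∃ l : List A, dl (Nat.unpair n).2 = l.map ι ∧ M.rel k l then 1 else 0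

/-- the real `y` codes the structure `M` -/
def Codes {A : Type} (y : ℕ → ℕ) (M : Str A) : Prop :=
  ∃ ι : A → ℕ, Function.Injective ι ∧ y = dgm ι M

/-- `ω₁^M`, the least `ω₁^y` of a real `y` coding `M` -/
noncomputable def omega1Str {A : Type} (M : Str A) : Ordinal.{0} :=
  sInf {α | ∃ y, Codes y M ∧ α = omega1 y}

/-- the ordinal spectrum of `φ` -/
def Spec (φ : Fml) : Set Ordinal.{0} :=
  {α | ∃ (A : Type) (M : Str A), Countable A ∧ Nonempty A ∧ Mod M φ ∧ α = omega1Str M}

/-- the tuples `a` of `M` and `b` of `N` satisfy the same atomic formulas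
(`l.filterMap fun i => a[i]?` is the tuple of the entries `a_i`, `i` in the list `l`) -/
def AtEq {A B : Type} (M : Str A) (N : Str B) (a : List A) (b : List B) : Prop :=
  a.length = b.length ∧ (∀ i j : ℕ, a[i]? = a[j]? ↔ b[i]? = b[j]?) ∧
    ∀ (k : ℕ) (l : List ℕ),
      M.rel k (l.filterMap fun i => a[i]?) ↔ N.rel k (l.filterMap fun i => b[i]?)

/-- the back-and-forth relations: `BF M N α a b` iff `a` and `b` satisfy the same atomic formulas
and for every `β < α` each element of one structure can be answered in the other one,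
with `BF M N β` for the prolonged tuples -/
def BF {A B : Type} (M : Str A) (N : Str B) (α : Ordinal.{0}) (a : List A) (b : List B) : Prop :=
  AtEq M N a b ∧ ∀ β, (_ : β < α) →
    (∀ c, ∃ d, BF M N β (a ++ [c]) (b ++ [d])) ∧ ∀ d, ∃ c, BF M N β (a ++ [c]) (b ++ [d])
termination_by α

/-- isomorphisms -/
def IsIso {A B : Type} (M : Str A) (N : Str B) (f : A ≃ B) : Prop :=
  ∀ k l, M.rel k l ↔ N.rel k (l.map f)

/-- the Scott rank: the least `α` such that tuples which are `α`-equivalent are automorphic -/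
noncomputable def SR {A : Type} (M : Str A) : Ordinal.{0} :=
  sInf {α | ∀ a b, BF M M α a b → ∃ f : A ≃ A, IsIso M M f ∧ a.map f = b}

end BW
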