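import Pool.Agent.Lib.MP_62bfd3_lc.BW.Voc

/-!
# BW.Stm : the definitions used in the statement, in explicit form, and their agreement with the
ones of `BW.Fm`, `BW.Voc`
-/

namespace BWS

open Encodable BW

/-- satisfaction, by recursion on the formula: `v_i = v_j`, `R_k(v_l)`, negation, countable
conjunction, `∀ v_i`, finite substitution -/
noncomputable def Sat {A : Type} (M : Str A) (φ : Fml) : (ℕ → A) → Prop :=
  Fml.rec (motive := fun _ => (ℕ → A) → Prop)
    (fun i j v => v i = v j)
    (fun k l v => M.rel k (l.map v))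
    (fun _ S v => ¬ S v)
    (fun _ S v => ∀ n, S n v)
    (fun i _ S v => ∀ a, S (Function.update v i a))
    (fun l _ S v => S (fun i => v (l.getD i i))) φ

/-- free variables -/
noncomputable def free (φ : Fml) : Set ℕ :=
  Fml.rec (motive := fun _ => Set ℕ)
    (fun i j => {i, j})
    (fun _ l => {i | i ∈ l})
    (fun _ F => F)
    (fun _ F => ⋃ n, F n)
    (fun i _ F => F \ {i})
    (fun l _ F => {j | ∃ i ∈ F, l.getD i i = j}) φ

/-- `M` is a model of the sentence `φ` -/
def Mod {A : Type} (M : Str A) (φ : Fml) : Prop := ∀ v, Sat M φ v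

/-- the real `c` is a code of the formula `φ` (`sub c n` is part number `n` of `c`) -/
noncomputable def HasCode (φ : Fml) : (ℕ → ℕ) → Prop :=
  Fml.rec (motive := fun _ => (ℕ → ℕ) → Prop)
    (fun i j c => c 0 = 0 ∧ c 1 = i ∧ c 2 = j)
    (fun k l c => c 0 = 1 ∧ c 1 = k ∧ c 2 = encode l)
    (fun _ H c => c 0 = 2 ∧ H (sub c 0))
    (fun _ H c => c 0 = 3 ∧ ∀ n, H n (sub c n))
    (fun i _ H c => c 0 = 4 ∧ c 1 = i ∧ H (sub c 0))
    (fun l _ H c => c 0 = 5 ∧ c 1 = encode l ∧ H (sub c 0)) φ

/-- formulas with a hyperarithmetic code: the formulas of `L_{ω₁ω} ∩ L_{ω₁^{CK}}` -/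
def HypFml (φ : Fml) : Prop := ∃ c, Hyp c ∧ HasCode φ c

/-- the real `y` codes the countable structure `M`: for an injective naming `ι` of the elements by
numbers, relation number `0` is the set of the names, relation number `k+1` is `R_k` -/
def Codes {A : Type} (y : ℕ → ℕ) (M : Str A) : Prop :=
  ∃ ι : A → ℕ, Function.Injective ι ∧ (∀ n, y n = 0 ∨ y n = 1) ∧
    (∀ n, y (Nat.pair 0 n) = 1 ↔ ∃ a, dl n = [ι a]) ∧
    ∀ k n, y (Nat.pair (k + 1) n) = 1 ↔ ∃ l : List A, dl n = l.map ι ∧ M.rel k l

/-- `ω₁^M`, the least `ω₁^y` of a real `y` coding `M` -/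
noncomputable def omega1Str {A : Type} (M : Str A) : Ordinal.{0} :=
  sInf {α | ∃ y, Codes y M ∧ α = omega1 y}

/-- the ordinal spectrum of `φ` in the vocabulary `V` -/
def SpecV (V : ℕ → ℕ → Prop) (φ : Fml) : Set Ordinal.{0} :=
  {α | ∃ (A : Type) (M : Str A), Countable A ∧ Nonempty A ∧ InVoc V M ∧ Mod M φ ∧
    α = omega1Str M}

/-- `BF M N α a b` is `(M,a) ≡_α (N,b)`: there is a back-and-forth system `R` (indexed by ordinals)
with `R α a b`; its members satisfy the same atomic formulas and at every step to a smaller ordinal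
each element of one structure is answered in the other one -/
def BF {A B : Type} (M : Str A) (N : Str B) (α : Ordinal.{0}) (a : List A) (b : List B) : Prop :=
  ∃ R : Ordinal.{0} → List A → List B → Prop, R α a b ∧ ∀ β s t, R β s t → AtEq M N s t ∧
    ∀ γ < β, (∀ c, ∃ d, R γ (s ++ [c]) (t ++ [d])) ∧ ∀ d, ∃ c, R γ (s ++ [c]) (t ++ [d])

/-- the Scott rank: the least `α` such that tuples which are `α`-equivalent are automorphic -/
noncomputable def SR {A : Type} (M : Str A) : Ordinal.{0} :=
  sInf {α | ∀ a b, BF M M α a b → ∃ f : A ≃ A, IsIso M M f ∧ a.map f = b}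

/-! ## agreement -/

theorem sat_iff {A : Type} (M : Str A) (φ : Fml) : ∀ v, Sat M φ v ↔ BW.Sat M φ v := by
  induction φ with
  | eq i j => exact fun v => Iff.rfl
  | rel k l => exact fun v => Iff.rfl
  | neg φ ih => exact fun v => not_congr (ih v)
  | conj φ ih => exact fun v => forall_congr' fun n => ih n v
  | all i φ ih => exact fun v => forall_congr' fun a => ih _
  | ren l φ ih => exact fun v => ih _

theorem mod_iff {A : Type} (M : Str A) (φ : Fml) : Mod M φ ↔ BW.Mod M φ :=
  forall_congr' fun v => sat_iff M φ v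

theorem free_eq (φ : Fml) : free φ = φ.free := by
  induction φ with
  | eq i j => rfl
  | rel k l => rfl
  | neg φ ih => exact ih
  | conj φ ih =>
    show (⋃ n, free (φ n)) = ⋃ n, (φ n).free
    simp only [ih]
  | all i φ ih =>
    show free φ \ {i} = φ.free \ {i}
    rw [ih]
  | ren l φ ih =>
    show {j | ∃ i ∈ free φ, l.getD i i = j} = {j | ∃ i ∈ φ.free, l.getD i i = j}
    rw [ih]

theorem hasCode_iff (φ : Fml) : ∀ c, HasCode φ c ↔ BW.HasCode φ c := by
  induction φ with
  | eq i j => exact fun c => Iff.rfl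
  | rel k l => exact fun c => Iff.rfl
  | neg φ ih => exact fun c => and_congr Iff.rfl (ih _)
  | conj φ ih => exact fun c => and_congr Iff.rfl (forall_congr' fun n => ih n _)
  | all i φ ih => exact fun c => and_congr Iff.rfl (and_congr Iff.rfl (ih _))
  | ren l φ ih => exact fun c => and_congr Iff.rfl (and_congr Iff.rfl (ih _))

theorem hypFml_iff (φ : Fml) : HypFml φ ↔ BW.HypFml φ :=
  exists_congr fun c => and_congr Iff.rfl (hasCode_iff φ c)

theorem codes_iff {A : Type} (y : ℕ → ℕ) (M : Str A) : Codes y M ↔ BW.Codes y M := by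
  classical
  refine exists_congr fun ι => and_congr Iff.rfl ?_
  constructor
  · rintro ⟨h1, h2, h3⟩
    funext n
    obtain ⟨k, m, rfl⟩ : ∃ k m, n = Nat.pair k m := ⟨_, _, (Nat.pair_unpair n).symm⟩
    unfold dgm
    rw [Nat.unpair_pair]
    cases k with
    | zero =>
      show y (Nat.pair 0 m) = if ∃ a, dl m = [ι a] then 1 else 0
      split_ifs with h
      · exact (h2 m).2 h
      · exact (h1 _).resolve_right fun h4 => h ((h2 m).1 h4)
    | succ k =>
      show y (Nat.pair (k + 1) m) = if ∃ l : List A, dl m = l.map ι ∧ M.rel k l then 1 else 0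
      split_ifs with h
      · exact (h3 k m).2 h
      · exact (h1 _).resolve_right fun h4 => h ((h3 k m).1 h4)
  · rintro rfl
    refine ⟨fun n => ?_, fun n => ?_, fun k n => ?_⟩
    · unfold dgm
      split <;> split_ifs <;> simp
    · unfold dgm
      rw [Nat.unpair_pair]
      show (if ∃ a, dl n = [ι a] then 1 else 0) = 1 ↔ _
      split_ifs with h <;> simp [h]
    · unfold dgm
      rw [Nat.unpair_pair]
      show (if ∃ l : List A, dl n = l.map ι ∧ M.rel k l then 1 else 0) = 1 ↔ _
      split_ifs with h <;> simp [h]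

theorem omega1Str_eq {A : Type} (M : Str A) : omega1Str M = BW.omega1Str M := by
  unfold omega1Str BW.omega1Str
  simp only [codes_iff]

theorem specV_eq (V : ℕ → ℕ → Prop) (φ : Fml) : SpecV V φ = BW.SpecV V φ := by
  unfold SpecV BW.SpecV
  simp only [mod_iff, omega1Str_eq]

theorem bf_iff {A B : Type} (M : Str A) (N : Str B) (α : Ordinal.{0}) (a : List A) (b : List B) :
    BF M N α a b ↔ BW.BF M N α a b := by
  constructor
  · rintro ⟨R, h, hR⟩
    induction α using WellFoundedLT.induction generalizing a b with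
    | ind α ih =>
      unfold BW.BF
      obtain ⟨h1, h2⟩ := hR _ _ _ h
      refine ⟨h1, fun β hβ => ⟨fun c => ?_, fun d => ?_⟩⟩
      · obtain ⟨d, hd⟩ := (h2 β hβ).1 c
        exact ⟨d, ih β hβ _ _ hd⟩
      · obtain ⟨c, hc⟩ := (h2 β hβ).2 d
        exact ⟨c, ih β hβ _ _ hc⟩
  · intro h
    refine ⟨BW.BF M N, h, fun β s t hst => ?_⟩
    unfold BW.BF at hst
    exact hst

theorem sR_eq {A : Type} (M : Str A) : SR M = BW.SR M := by
  unfold SR BW.SR
  simp only [bf_iff]

end BWS
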