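import Pool.Agent.Lib.MP_62bfd3_lc.BW.Fm

/-!
# BW.Voc : vocabularies
-/

namespace BW

/-- `M` is a structure for the relational vocabulary `V`, a set of pairs (symbol `k`, arity `n`):
the other relations are empty -/
def InVoc (V : ℕ → ℕ → Prop) {A : Type} (M : Str A) : Prop :=
  ∀ (k : ℕ) (l : List A), M.rel k l → V k l.length

/-- the vocabulary `V` is hyperarithmetic -/
def HypVoc (V : ℕ → ℕ → Prop) : Prop := ∃ y, Hyp y ∧ ∀ k n, V k n ↔ y (Nat.pair k n) = 1

/-- the ordinal spectrum of `φ` in the vocabulary `V` -/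
def SpecV (V : ℕ → ℕ → Prop) (φ : Fml) : Set Ordinal.{0} :=
  {α | ∃ (A : Type) (M : Str A), Countable A ∧ Nonempty A ∧ InVoc V M ∧ Mod M φ ∧
    α = omega1Str M}

end BW
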