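import Pool.Agent.Lib.MP_62bfd3_lc.BW.Voc
import Pool.Agent.Lib.MP_62bfd3_lc.BW.Fm5
import Pool.Agent.Lib.MP_62bfd3_lc.BW.M1

/-!
# BW.Voc1 : a sentence which says that the relations outside of the vocabulary are empty

PROOFS.
* `free_allN` : induction on `n`.
* `mod_allN` : `Mod M (allN n ψ) ↔ Mod M ψ` by induction on `n` (for all `ψ`): `Mod M (.all i ψ) ↔ Mod M ψ`
  (`update v i (v i) = v`).
* `free_vocF`, `free_verum` : the free variables of `.neg (.rel k (List.range n))` are the `i < n`.
* `mod_vocF` : `Mod M (.conj ψ) ↔ ∀ m, Mod M (ψ m)`; for `n = l.length` choose an assignment `v` with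
  `(List.range n).map v = l` (`A` is nonempty).
* `free_withVoc`, `mod_withVoc` : unfold `mk3` (the components are `n = 0`, `n = 1`, `n = m + 2`).
* `specV_eq` : immediate from `mod_withVoc`.
-/

namespace BW

open Classical

/-- `∀ v_0, .., v_(n-1)` -/
def allN : ℕ → Fml → Fml
  | 0, φ => φ
  | n + 1, φ => .all n (allN n φ)

/-- a valid sentence -/
def verum : Fml := .all 0 (.eq 0 0)

/-- the relations outside of the vocabulary `V` are empty -/
noncomputable def vocF (V : ℕ → ℕ → Prop) : Fml := .conj fun m =>
  if V (Nat.unpair m).1 (Nat.unpair m).2 then verum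
  else allN (Nat.unpair m).2 (.neg (.rel (Nat.unpair m).1 (List.range (Nat.unpair m).2)))

/-- `φ` together with `vocF V` -/
noncomputable def withVoc (V : ℕ → ℕ → Prop) (φ : Fml) : Fml := mk3 φ (vocF V) verum

theorem free_allN (n : ℕ) (φ : Fml) : (allN n φ).free = φ.free \ {i | i < n} := by
  induction n with
  | zero => simp [allN]
  | succ n ih =>
    simp only [allN, Fml.free, ih]
    ext i
    simp only [Set.mem_sdiff, Set.mem_ofPred_eq, Set.mem_singleton_iff]
    constructor
    · rintro ⟨⟨h1, h2⟩, h3⟩
      exact ⟨h1, by omega⟩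
    · rintro ⟨h1, h2⟩
      exact ⟨⟨h1, by omega⟩, by omega⟩

private theorem free_verum : verum.free = ∅ := by
  simp [verum, Fml.free]

theorem free_vocF (V : ℕ → ℕ → Prop) : (vocF V).free = ∅ := by
  simp only [vocF, Fml.free, Set.iUnion_eq_empty]
  intro m
  split_ifs with h
  · exact free_verum
  · rw [free_allN]
    ext i
    simp only [Fml.free, Set.mem_sdiff, Set.mem_ofPred_eq, List.mem_range, Set.mem_empty_iff_false,
      iff_false, not_and, not_not]
    exact fun h => h

theorem free_withVoc {V : ℕ → ℕ → Prop} {φ : Fml} (h : φ.free = ∅) :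
    (withVoc V φ).free = ∅ := by
  simp only [withVoc, mk3, Fml.free, Set.iUnion_eq_empty]
  intro n
  match n with
  | 0 => exact h
  | 1 => exact free_vocF V
  | _ + 2 => exact free_verum

theorem mod_allN {A : Type} (M : Str A) (n : ℕ) (φ : Fml) : Mod M (allN n φ) ↔ Mod M φ := by
  induction n with
  | zero => rfl
  | succ n ih =>
    rw [← ih]
    constructor
    · intro h v
      have := h v (v n)
      rwa [Function.update_eq_self] at this
    · intro h v a
      exact h _

theorem mod_vocF {A : Type} [Nonempty A] (M : Str A) (V : ℕ → ℕ → Prop) :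
    Mod M (vocF V) ↔ InVoc V M := by
  constructor
  · intro h k l hl
    by_contra hV
    obtain ⟨a₀⟩ := ‹Nonempty A›
    have h1 : Mod M (allN l.length (.neg (.rel k (List.range l.length)))) := by
      intro v
      have h2 := h v (Nat.pair k l.length)
      simp only [Nat.unpair_pair, if_neg hV] at h2
      exact h2
    rw [mod_allN] at h1
    have h3 := h1 (fun i => l.getD i a₀)
    apply h3
    show M.rel k ((List.range l.length).map (fun i => l.getD i a₀))
    have h4 : (List.range l.length).map (fun i => l.getD i a₀) = l := by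
      apply List.ext_getElem
      · simp
      · intro i h5 h6
        rw [List.getElem_map, List.getElem_range, List.getD_eq_getElem _ _ h6]
    rw [h4]
    exact hl
  · intro h v m
    show Sat M (if V (Nat.unpair m).1 (Nat.unpair m).2 then verum
      else allN (Nat.unpair m).2 (.neg (.rel (Nat.unpair m).1 (List.range (Nat.unpair m).2)))) v
    split_ifs with hV
    · intro a
      rfl
    · have h1 : Mod M (allN (Nat.unpair m).2
          (.neg (.rel (Nat.unpair m).1 (List.range (Nat.unpair m).2)))) := by
        rw [mod_allN]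
        intro w h2
        apply hV
        have h3 := h _ _ h2
        simpa using h3
      exact h1 v

theorem mod_withVoc {A : Type} [Nonempty A] (M : Str A) (V : ℕ → ℕ → Prop) (φ : Fml) :
    Mod M (withVoc V φ) ↔ Mod M φ ∧ InVoc V M := by
  rw [← mod_vocF M V]
  constructor
  · intro h
    exact ⟨fun v => h v 0, fun v => h v 1⟩
  · rintro ⟨h1, h2⟩ v n
    match n with
    | 0 => exact h1 v
    | 1 => exact h2 v
    | _ + 2 =>
      intro a
      rfl

theorem specV_eq (V : ℕ → ℕ → Prop) (φ : Fml) : SpecV V φ = Spec (withVoc V φ) := by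
  ext α
  constructor
  · rintro ⟨A, M, hA, hN, hV, hM, rfl⟩
    exact ⟨A, M, hA, hN, (mod_withVoc M V φ).2 ⟨hM, hV⟩, rfl⟩
  · rintro ⟨A, M, hA, hN, hM, rfl⟩
    exact ⟨A, M, hA, hN, ((mod_withVoc M V φ).1 hM).2, ((mod_withVoc M V φ).1 hM).1, rfl⟩

end BW
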