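import Pool.Agent.Lib.MP_62bfd3_lc.BW.Voc1
import Pool.Agent.Lib.MP_62bfd3_lc.Mg.G005

/-!
# BW.Voc2 : `withVoc V φ` has a hyperarithmetic code

PROOF.  It is enough that `vocF V` has one (`hypFml_mk3`), and for this, by `hypFml_conj`, to find a
hyperarithmetic real `y` such that `col y m` is a code of the component number `m`.  Let `w` be the
hyperarithmetic real of `V`.  A code of `allN j (.neg (.rel k (List.range n)))` is the real `Voc2g k n j`.
-/

namespace BW

open Encodable

/-- one step of the address computation -/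
def Voc2s (q : ℕ × ℕ) : ℕ × ℕ :=
  if q.1 = 0 ∨ q.2 < 3 then q else (q.1 - 1, (Nat.unpair (q.2 - 3)).2)

/-- the code of `.neg (.rel k (List.range n))` -/
def Voc2b (k n p : ℕ) : ℕ :=
  if p = 0 then 2 else if p < 3 then 0 else
    if (Nat.unpair (p - 3)).2 = 0 then 1 else
      if (Nat.unpair (p - 3)).2 = 1 then k else
        if (Nat.unpair (p - 3)).2 = 2 then encode (List.range n) else 0

/-- the code of `allN j (.neg (.rel k (List.range n)))` -/
def Voc2g (k n j p : ℕ) : ℕ :=
  if (Voc2s^[j] (j, p)).1 = 0 then Voc2b k n (Voc2s^[j] (j, p)).2 else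
    if (Voc2s^[j] (j, p)).2 = 0 then 4 else
      if (Voc2s^[j] (j, p)).2 = 1 then (Voc2s^[j] (j, p)).1 - 1 else 0

private theorem s_small (j p : ℕ) (hp : p < 3) (i : ℕ) : Voc2s^[i] (j, p) = (j, p) := by
  induction i with
  | zero => rfl
  | succ i ih =>
    rw [Function.iterate_succ_apply', ih]
    simp [Voc2s, hp]

private theorem g_zero (k n p : ℕ) : Voc2g k n 0 p = Voc2b k n p := by
  simp [Voc2g]

private theorem g_succ0 (k n j : ℕ) : Voc2g k n (j + 1) 0 = 4 := by
  simp [Voc2g, s_small]

private theorem g_succ1 (k n j : ℕ) : Voc2g k n (j + 1) 1 = j := by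
  simp [Voc2g, s_small]

private theorem g_succ3 (k n j p : ℕ) :
    Voc2g k n (j + 1) (p + 3) = Voc2g k n j (Nat.unpair p).2 := by
  have h : Voc2s^[j + 1] (j + 1, p + 3) = Voc2s^[j] (j, (Nat.unpair p).2) := by
    rw [Function.iterate_succ_apply]
    simp [Voc2s]
  simp only [Voc2g, h]

private theorem hasCode_b (k n : ℕ) : HasCode (.neg (.rel k (List.range n))) (Voc2b k n) := by
  refine ⟨by simp [Voc2b], ?_, ?_, ?_⟩ <;> simp [sub, Voc2b]

private theorem hasCode_g (k n j : ℕ) :
    HasCode (allN j (.neg (.rel k (List.range n)))) (Voc2g k n j) := by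
  induction j with
  | zero =>
    have h : Voc2g k n 0 = Voc2b k n := funext fun p => g_zero k n p
    rw [h]
    exact hasCode_b k n
  | succ j ih =>
    refine ⟨g_succ0 k n j, g_succ1 k n j, ?_⟩
    have h : sub (Voc2g k n (j + 1)) 0 = Voc2g k n j := by
      funext p
      simp only [sub, g_succ3, Nat.unpair_pair]
    rw [h]
    exact ih

private theorem primrec_s : Primrec Voc2s := by
  unfold Voc2s
  refine Primrec.ite ?_ Primrec.id ?_
  · exact PrimrecPred.or (Primrec.eq.comp Primrec.fst (Primrec.const 0))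
      (Primrec.nat_lt.comp Primrec.snd (Primrec.const 3))
  · exact Primrec.pair (Primrec.nat_sub.comp Primrec.fst (Primrec.const 1))
      (Primrec.snd.comp (Primrec.unpair.comp (Primrec.nat_sub.comp Primrec.snd (Primrec.const 3))))

private theorem primrec_it : Primrec (fun q : ℕ × ℕ => Voc2s^[q.1] (q.1, q.2)) := by
  have h : Primrec₂ (fun (_ : ℕ × ℕ) (r : ℕ × ℕ) => Voc2s r) := (primrec_s.comp Primrec.snd).to₂
  exact Primrec.nat_iterate Primrec.fst (Primrec.pair Primrec.fst Primrec.snd) h

private theorem primrec_range : Primrec (fun n : ℕ => encode (List.range n)) :=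
  Primrec.encode.comp Primrec.list_range

private theorem primrec_b : Primrec (fun q : (ℕ × ℕ) × ℕ => Voc2b q.1.1 q.1.2 q.2) := by
  have hp : Primrec (fun q : (ℕ × ℕ) × ℕ => q.2) := Primrec.snd
  have hs : Primrec (fun q : (ℕ × ℕ) × ℕ => (Nat.unpair (q.2 - 3)).2) :=
    Primrec.snd.comp (Primrec.unpair.comp (Primrec.nat_sub.comp hp (Primrec.const 3)))
  unfold Voc2b
  refine Primrec.ite (Primrec.eq.comp hp (Primrec.const 0)) (Primrec.const 2) ?_
  refine Primrec.ite (Primrec.nat_lt.comp hp (Primrec.const 3)) (Primrec.const 0) ?_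
  refine Primrec.ite (Primrec.eq.comp hs (Primrec.const 0)) (Primrec.const 1) ?_
  refine Primrec.ite (Primrec.eq.comp hs (Primrec.const 1)) (Primrec.fst.comp Primrec.fst) ?_
  refine Primrec.ite (Primrec.eq.comp hs (Primrec.const 2)) ?_ (Primrec.const 0)
  exact primrec_range.comp (Primrec.snd.comp Primrec.fst)

private theorem primrec_g :
    Primrec (fun q : (ℕ × ℕ) × (ℕ × ℕ) => Voc2g q.1.1 q.1.2 q.2.1 q.2.2) := by
  have hit : Primrec (fun q : (ℕ × ℕ) × (ℕ × ℕ) => Voc2s^[q.2.1] (q.2.1, q.2.2)) :=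
    primrec_it.comp Primrec.snd
  have h1 := Primrec.fst.comp hit
  have h2 := Primrec.snd.comp hit
  unfold Voc2g
  refine Primrec.ite (Primrec.eq.comp h1 (Primrec.const 0)) ?_ ?_
  · exact primrec_b.comp (Primrec.pair Primrec.fst h2)
  refine Primrec.ite (Primrec.eq.comp h2 (Primrec.const 0)) (Primrec.const 4) ?_
  refine Primrec.ite (Primrec.eq.comp h2 (Primrec.const 1)) ?_ (Primrec.const 0)
  exact Primrec.nat_sub.comp h1 (Primrec.const 1)

theorem hypFml_vocF {V : ℕ → ℕ → Prop} (hV : HypVoc V) : HypFml (vocF V) := by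
  obtain ⟨w, hw, hVw⟩ := hV
  have hG : Rec (fun m x => if x (Nat.unpair (Nat.unpair m).2).1 = 1
      then (if (Nat.unpair (Nat.unpair m).2).2 = 0 then 4 else 0)
      else Voc2g (Nat.unpair (Nat.unpair (Nat.unpair m).2).1).1
        (Nat.unpair (Nat.unpair (Nat.unpair m).2).1).2
        (Nat.unpair (Nat.unpair (Nat.unpair m).2).1).2
        (Nat.unpair (Nat.unpair m).2).2) := by
    have hP : RecP (fun m x => x (Nat.unpair (Nat.unpair m).2).1 = 1) :=
      recP_eq (rec_app (rec_fst (rec_snd rec_id))) (rec_const 1)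
    have h1 : Rec (fun m (_ : ℕ → ℕ) => if (Nat.unpair (Nat.unpair m).2).2 = 0 then 4 else 0) := by
      refine rec_of_primrec (f := fun m => if (Nat.unpair (Nat.unpair m).2).2 = 0 then 4 else 0) ?_
      exact Primrec.ite (Primrec.eq.comp (Primrec.snd.comp (Primrec.unpair.comp
        (Primrec.snd.comp Primrec.unpair))) (Primrec.const 0)) (Primrec.const 4) (Primrec.const 0)
    have h2 : Rec (fun m (_ : ℕ → ℕ) => Voc2g (Nat.unpair (Nat.unpair (Nat.unpair m).2).1).1
        (Nat.unpair (Nat.unpair (Nat.unpair m).2).1).2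
        (Nat.unpair (Nat.unpair (Nat.unpair m).2).1).2
        (Nat.unpair (Nat.unpair m).2).2) := by
      refine rec_of_primrec (f := fun m => Voc2g (Nat.unpair (Nat.unpair (Nat.unpair m).2).1).1
        (Nat.unpair (Nat.unpair (Nat.unpair m).2).1).2
        (Nat.unpair (Nat.unpair (Nat.unpair m).2).1).2
        (Nat.unpair (Nat.unpair m).2).2) ?_
      have a2 : Primrec (fun m : ℕ => Nat.unpair (Nat.unpair m).2) :=
        Primrec.unpair.comp (Primrec.snd.comp Primrec.unpair)
      have a1 : Primrec (fun m : ℕ => Nat.unpair (Nat.unpair (Nat.unpair m).2).1) :=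
        Primrec.unpair.comp (Primrec.fst.comp a2)
      exact primrec_g.comp (Primrec.pair a1 (Primrec.pair (Primrec.snd.comp a1)
        (Primrec.snd.comp a2)))
    have h3 := rec_ite hP h1 h2
    convert h3 using 4
  have hy := funIn_of_rec hG w 0
  simp only [Nat.unpair_pair] at hy
  refine hypFml_conj (y := fun n => if w (Nat.unpair n).1 = 1
      then (if (Nat.unpair n).2 = 0 then 4 else 0)
      else Voc2g (Nat.unpair (Nat.unpair n).1).1 (Nat.unpair (Nat.unpair n).1).2
        (Nat.unpair (Nat.unpair n).1).2 (Nat.unpair n).2)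
    (hypIn_trans hw (hypIn_of_funIn hy)) ?_
  intro m
  by_cases hm : V (Nat.unpair m).1 (Nat.unpair m).2
  · have hwm : w m = 1 := by
      have := (hVw _ _).1 hm
      rwa [Nat.pair_unpair] at this
    rw [if_pos hm]
    have hcol : col (fun n => if w (Nat.unpair n).1 = 1
        then (if (Nat.unpair n).2 = 0 then 4 else 0)
        else Voc2g (Nat.unpair (Nat.unpair n).1).1 (Nat.unpair (Nat.unpair n).1).2
          (Nat.unpair (Nat.unpair n).1).2 (Nat.unpair n).2) m =
        fun p => if p = 0 then 4 else 0 := by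
      funext p
      simp only [col, Nat.unpair_pair, hwm, if_true]
    rw [hcol]
    refine ⟨by simp, by simp, ?_, ?_, ?_⟩ <;> simp [sub]
  · have hwm : w m ≠ 1 := by
      intro h
      exact hm ((hVw _ _).2 (by rwa [Nat.pair_unpair]))
    rw [if_neg hm]
    have hcol : col (fun n => if w (Nat.unpair n).1 = 1
        then (if (Nat.unpair n).2 = 0 then 4 else 0)
        else Voc2g (Nat.unpair (Nat.unpair n).1).1 (Nat.unpair (Nat.unpair n).1).2
          (Nat.unpair (Nat.unpair n).1).2 (Nat.unpair n).2) m =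
        Voc2g (Nat.unpair m).1 (Nat.unpair m).2 (Nat.unpair m).2 := by
      funext p
      simp only [col, Nat.unpair_pair, hwm, if_false]
    rw [hcol]
    exact hasCode_g _ _ _

private theorem hypFml_verum : HypFml verum := by
  have hy : Hyp (fun p => if p = 0 then 4 else 0) := by
    have hG : Rec (fun m (_ : ℕ → ℕ) => if (Nat.unpair m).2 = 0 then 4 else 0) := by
      refine rec_of_primrec (f := fun m => if (Nat.unpair m).2 = 0 then 4 else 0) ?_
      exact Primrec.ite (Primrec.eq.comp (Primrec.snd.comp Primrec.unpair) (Primrec.const 0))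
        (Primrec.const 4) (Primrec.const 0)
    have h := hypIn_of_funIn (funIn_of_rec hG (fun _ => 0) 0)
    simp only [Nat.unpair_pair] at h
    exact h
  refine ⟨_, hy, by simp, by simp, ?_, ?_, ?_⟩ <;> simp [sub]

theorem hypFml_withVoc {V : ℕ → ℕ → Prop} (hV : HypVoc V) {φ : Fml} (h : HypFml φ) :
    HypFml (withVoc V φ) := hypFml_mk3 h (hypFml_vocF hV) hypFml_verum

end BW
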